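import Pool.Agent.Helper22.TL.Spec
import Pool.Agent.Helper22.TL.RI2

set_option autoImplicit false

/-! TL part CEN: centres of faces, equivariant under symmetries. -/

namespace TL

open Set

namespace CENaux

variable {d : ℕ}

open Classical in
/-- the centre: mean of the extreme points -/
noncomputable def cen (F : Set (E d)) : E d :=
  if h : (F.extremePoints ℝ).Finite then
    ((h.toFinset.card : ℝ)⁻¹) • ∑ v ∈ h.toFinset, v else 0

/-- the centroid of a finite set is in the relative interior of its hull -/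
lemma mean_ri (s : Finset (E d)) (hs : s.Nonempty) :
    ((s.card : ℝ)⁻¹) • ∑ v ∈ s, v ∈ ri (convexHull ℝ (s : Set (E d))) := by
  have hn : 0 < (s.card : ℝ) := by
    have := Finset.card_pos.mpr hs
    exact_mod_cast this
  have hmem : ∀ w : E d → ℝ, (∀ v ∈ s, 0 ≤ w v) → ∑ v ∈ s, w v = 1 →
      ∑ v ∈ s, w v • v ∈ convexHull ℝ (s : Set (E d)) := by
    intro w hw hw1
    rw [Finset.convexHull_eq]
    refine ⟨w, hw, hw1, ?_⟩
    rw [Finset.centerMass_eq_of_sum_1 _ _ hw1]
    rfl
  refine ⟨?_, ?_⟩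
  · have := hmem (fun _ => (s.card : ℝ)⁻¹) (fun _ _ => by positivity) (by
      rw [Finset.sum_const, nsmul_eq_mul]
      field_simp)
    rwa [← Finset.smul_sum] at this
  · intro y hy
    rw [Finset.convexHull_eq] at hy
    obtain ⟨b, hb0, hb1, hby⟩ := hy
    rw [Finset.centerMass_eq_of_sum_1 _ _ hb1] at hby
    simp only [id] at hby
    refine ⟨(s.card : ℝ)⁻¹, by positivity, ?_⟩
    set n : ℝ := (s.card : ℝ) with hnn
    have hle : ∀ v ∈ s, b v ≤ 1 := by
      intro v hv
      rw [← hb1]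
      exact Finset.single_le_sum hb0 hv
    have h1 := hmem (fun v => n⁻¹ + n⁻¹ * (n⁻¹ - b v)) (fun v hv => by
      have h2 := hle v hv
      have h3 : 0 < n⁻¹ := by positivity
      nlinarith) (by
      rw [Finset.sum_add_distrib, ← Finset.mul_sum, Finset.sum_sub_distrib, Finset.sum_const,
        nsmul_eq_mul, hb1, ← hnn]
      field_simp
      ring)
    convert h1 using 1
    simp only [add_smul, mul_smul, sub_smul, smul_sub]
    rw [Finset.sum_add_distrib, Finset.sum_sub_distrib, ← Finset.smul_sum, ← Finset.smul_sum,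
      ← Finset.smul_sum, ← hby, ← Finset.smul_sum]

lemma face_hull {T F : Set (E d)} (hT : IsPoly T) (hF : IsFace T F) (hne : F.Nonempty) :
    (F.extremePoints ℝ).Finite ∧ F = convexHull ℝ (F.extremePoints ℝ) := by
  obtain ⟨s, hs0, hs, _⟩ := (ri2_thm d).1 T F hT hF hne
  have hsub : F.extremePoints ℝ ⊆ (s : Set (E d)) := by
    intro x hx
    rw [hs] at hx
    exact extremePoints_convexHull_subset hx
  have hfin : (F.extremePoints ℝ).Finite := s.finite_toSet.subset hsub
  refine ⟨hfin, ?_⟩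
  have hcomp : IsCompact F := by
    rw [hs]
    exact s.finite_toSet.isCompact_convexHull ℝ
  have h1 := closure_convexHull_extremePoints hcomp hF.2
  rw [(hfin.isClosed_convexHull ℝ).closure_eq] at h1
  exact h1.symm

lemma cen_ri {T F : Set (E d)} (hT : IsPoly T) (hF : IsFace T F) (hne : F.Nonempty) :
    cen F ∈ ri F := by
  obtain ⟨hfin, hhull⟩ := face_hull hT hF hne
  have hne' : hfin.toFinset.Nonempty := by
    rw [Set.Finite.toFinset_nonempty]
    rw [hhull] at hne
    exact convexHull_nonempty_iff.mp hne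
  have h1 := mean_ri hfin.toFinset hne'
  rw [Set.Finite.coe_toFinset, ← hhull] at h1
  unfold cen
  rw [dif_pos hfin]
  exact h1

/-- the affine map of an isometry -/
noncomputable def am (φ : E d ≃ᵢ E d) : E d →ᵃ[ℝ] E d :=
  φ.toRealAffineIsometryEquiv.toAffineEquiv.toAffineMap

lemma am_apply (φ : E d ≃ᵢ E d) (x : E d) : am φ x = φ x := rfl

lemma am_image (φ : E d ≃ᵢ E d) (F : Set (E d)) : am φ '' F = φ '' F := rfl

lemma seg (φ : E d ≃ᵢ E d) (x y z : E d) :
    φ z ∈ openSegment ℝ (φ x) (φ y) ↔ z ∈ openSegment ℝ x y := by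
  have h1 := image_openSegment ℝ (am φ) x y
  rw [am_apply, am_apply, am_image] at h1
  rw [← h1]
  exact φ.injective.mem_set_image

lemma face_image (φ : E d ≃ᵢ E d) {T F : Set (E d)} (hF : IsFace T F) :
    IsFace (φ '' T) (φ '' F) := by
  refine ⟨⟨Set.image_mono hF.1.subset, ?_⟩, ?_⟩
  · rintro _ ⟨x, hx, rfl⟩ _ ⟨y, hy, rfl⟩ _ ⟨z, hz, rfl⟩ h
    rw [seg] at h
    exact ⟨x, hF.1.left_mem_of_mem_openSegment hx hy hz h, rfl⟩
  · rw [← am_image]
    exact hF.2.affine_image _

lemma ext_image (φ : E d ≃ᵢ E d) (F : Set (E d)) :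
    (φ '' F).extremePoints ℝ = φ '' (F.extremePoints ℝ) := by
  ext w
  constructor
  · intro hw
    rw [mem_extremePoints] at hw
    obtain ⟨⟨x, hx, rfl⟩, h2⟩ := hw
    refine ⟨x, ?_, rfl⟩
    rw [mem_extremePoints]
    refine ⟨hx, ?_⟩
    intro a ha b hb hab
    obtain ⟨h3, h4⟩ := h2 (φ a) ⟨a, ha, rfl⟩ (φ b) ⟨b, hb, rfl⟩ ((seg φ a b x).mpr hab)
    exact ⟨φ.injective h3, φ.injective h4⟩
  · rintro ⟨x, hx, rfl⟩
    rw [mem_extremePoints] at hx ⊢
    refine ⟨⟨x, hx.1, rfl⟩, ?_⟩
    rintro _ ⟨a, ha, rfl⟩ _ ⟨b, hb, rfl⟩ hab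
    obtain ⟨h3, h4⟩ := hx.2 a ha b hb ((seg φ a b x).mp hab)
    exact ⟨by rw [h3], by rw [h4]⟩

lemma am_mean (φ : E d ≃ᵢ E d) (s : Finset (E d)) (hs : s.Nonempty) :
    φ (((s.card : ℝ)⁻¹) • ∑ v ∈ s, v) = ((s.card : ℝ)⁻¹) • ∑ v ∈ s, φ v := by
  have hn : (s.card : ℝ) ≠ 0 := by
    have := Finset.card_pos.mpr hs
    exact_mod_cast this.ne'
  have hlin : ∀ z, φ z = (am φ).linear z + φ 0 := by
    intro z
    have := congrFun (AffineMap.decomp (am φ)) z
    simpa [am_apply] using this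
  rw [hlin, map_smul, map_sum]
  have h2 : ∑ v ∈ s, φ v = ∑ v ∈ s, (am φ).linear v + (s.card : ℝ) • φ 0 := by
    rw [Nat.cast_smul_eq_nsmul ℝ, ← Finset.sum_const, ← Finset.sum_add_distrib]
    exact Finset.sum_congr rfl (fun v _ => hlin v)
  rw [h2, smul_add, smul_smul, inv_mul_cancel₀ hn, one_smul]

end CENaux

open CENaux

theorem cen_thm : S_CEN := by
  intro d 𝒯 hL
  refine ⟨cen, ?_, ?_⟩
  · rintro F ⟨hne, T, hT, hF⟩
    exact cen_ri (hL.poly T hT) hF hne
  · rintro φ hφ F ⟨hne, T, hT, hF⟩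
    refine ⟨⟨hne.image φ, φ '' T, (hφ T).mpr hT, face_image φ hF⟩, ?_⟩
    obtain ⟨hfin, hhull⟩ := face_hull (hL.poly T hT) hF hne
    have hne' : hfin.toFinset.Nonempty := by
      rw [Set.Finite.toFinset_nonempty]
      rw [hhull] at hne
      exact convexHull_nonempty_iff.mp hne
    have hfin' : ((φ '' F).extremePoints ℝ).Finite := by
      rw [ext_image]
      exact hfin.image _
    classical
    have htf : hfin'.toFinset = hfin.toFinset.image φ := by
      ext x
      rw [Set.Finite.mem_toFinset, Finset.mem_image, ext_image]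
      simp
    unfold cen
    rw [dif_pos hfin, dif_pos hfin', am_mean φ _ hne', htf,
      Finset.card_image_of_injective _ φ.injective, Finset.sum_image]
    intro a _ b _ hab
    exact φ.injective hab

end TL
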