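import Pool.Agent.Helper22.TL.Spec

set_option autoImplicit false

/-! TL part FOLD: folding towards a simplex. -/

namespace TL

open Set

theorem fold_thm : S_FOLD := by
  intro d b s hd hb hfix hmove o ho y hy
  have hspan : affineSpan ℝ (range b) = ⊤ := by
    rw [hb.affineSpan_eq_top_iff_card_eq_finrank_add_one]
    simp
  set B : AffineBasis (Fin (d + 1)) ℝ (E d) := ⟨b, hb, hspan⟩ with hB
  have hBb : (B : Fin (d + 1) → E d) = b := rfl
  have ho' : ∀ i, 0 < B.coord i o := by
    have := B.interior_convexHull
    rw [hBb] at this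
    rw [this] at ho
    exact ho
  obtain ⟨i, hi⟩ : ∃ i, B.coord i y < 0 := by
    by_contra hcon
    push Not at hcon
    apply hy
    have := B.convexHull_eq_nonneg_coord
    rw [hBb] at this
    rw [this]
    exact hcon
  refine ⟨i, ?_⟩
  -- the isometry `s i` is `x ↦ x + coord i x • t`
  set t : E d := s i (b i) - b i with ht
  have ht0 : t ≠ 0 := sub_ne_zero.mpr (hmove i)
  have hform : ∀ x : E d, s i x = x + B.coord i x • t := by
    intro x
    set f := (s i).toRealAffineIsometryEquiv with hf
    have hfs : ∀ z, s i z = f.toAffineEquiv.toAffineMap z := fun z => rfl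
    set g : E d →ᵃ[ℝ] E d := f.toAffineEquiv.toAffineMap with hg
    have hlin : ∀ z, g z = g.linear z + g 0 := by
      intro z
      have := congrFun (AffineMap.decomp g) z
      simpa using this
    have hx := B.linear_combination_coord_eq_self x
    have hsum := B.sum_coord_apply_eq_one x
    have h1 : g x = ∑ j, B.coord j x • g (b j) := by
      rw [hlin x]
      conv_lhs => rw [← hx]
      rw [map_sum]
      have h2 : ∀ j, B.coord j x • g (b j) = g.linear (B.coord j x • B j) + B.coord j x • g 0 := by
        intro j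
        rw [hlin (b j), smul_add, map_smul]
        rfl
      simp only [h2]
      rw [Finset.sum_add_distrib, ← Finset.sum_smul, hsum, one_smul]
    rw [hfs, h1]
    conv_rhs => rw [← hx]
    have h3 : ∀ j, B.coord j x • g (b j) = B.coord j x • B j +
        (if j = i then B.coord i x • t else 0) := by
      intro j
      by_cases hji : j = i
      · subst hji
        rw [if_pos rfl, ht, ← smul_add]
        congr 1
        show g (b j) = b j + (s j (b j) - b j)
        rw [← hfs]
        abel
      · rw [if_neg hji, add_zero, ← hfs, hfix i j hji]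
        rfl
    simp only [h3]
    rw [Finset.sum_add_distrib, Finset.sum_ite_eq']
    simp only [Finset.mem_univ, if_true]
    rw [hx]
  set α := B.coord i y with hα
  set β := B.coord i o with hβ
  have hβ0 : 0 < β := ho' i
  have hiso : ‖(y + α • t) - (o + β • t)‖ = ‖y - o‖ := by
    rw [← hform y, ← hform o, ← dist_eq_norm, ← dist_eq_norm]
    exact (s i).dist_eq y o
  have h1 : ‖(y - o) + (α - β) • t‖ ^ 2 = ‖y - o‖ ^ 2 := by
    rw [← hiso]
    congr 2
    module
  rw [norm_add_sq_real, inner_smul_right, norm_smul, mul_pow, Real.norm_eq_abs, sq_abs] at h1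
  have hT : 0 < ‖t‖ ^ 2 := by positivity
  have hne : α - β ≠ 0 := by linarith
  have h2 : 2 * inner ℝ (y - o) t = -(α - β) * ‖t‖ ^ 2 := by
    have : (α - β) * (2 * inner ℝ (y - o) t + (α - β) * ‖t‖ ^ 2) = 0 := by linarith
    rcases mul_eq_zero.mp this with h3 | h3
    · exact absurd h3 hne
    · linarith
  have h3 : ‖(y - o) + α • t‖ ^ 2 < ‖y - o‖ ^ 2 := by
    rw [norm_add_sq_real, inner_smul_right, norm_smul, mul_pow, Real.norm_eq_abs, sq_abs]
    have h4 : 2 * (α * inner ℝ (y - o) t) = α * (-(α - β) * ‖t‖ ^ 2) := by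
      rw [← h2]; ring
    rw [h4]
    have : α * β * ‖t‖ ^ 2 < 0 := mul_neg_of_neg_of_pos (mul_neg_of_neg_of_pos hi hβ0) hT
    nlinarith
  rw [hform y, dist_eq_norm, dist_eq_norm]
  have h5 : y + α • t - o = (y - o) + α • t := by abel
  rw [h5]
  exact lt_of_pow_lt_pow_left₀ 2 (norm_nonneg _) h3

end TL
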