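import Pool.Agent.Helper22.TL.Spec

set_option autoImplicit false

/-! TL part MON: monodromy in star-shaped sets. -/

namespace TL

open Set

namespace MONaux

/-- a predicate which is locally constant on a preconnected subset of `ℝ` is constant -/
lemma prop_conn (P : ℝ → Prop) {A : Set ℝ} (hA : IsPreconnected A)
    (h : ∀ t ∈ A, ∃ ε > (0 : ℝ), ∀ s ∈ A, |s - t| < ε → (P s ↔ P t)) {a b : ℝ} (ha : a ∈ A)
    (hb : b ∈ A) (hPa : P a) : P b := by
  classical
  have hc : ContinuousOn (fun t => decide (P t)) A := by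
    intro t ht
    obtain ⟨ε, hε, h1⟩ := h t ht
    have : Filter.Tendsto (fun t => decide (P t)) (nhdsWithin t A) (pure (decide (P t))) := by
      rw [Filter.tendsto_pure]
      have h2 : ∀ᶠ s in nhdsWithin t A, s ∈ Metric.ball t ε :=
        mem_nhdsWithin_of_mem_nhds (Metric.ball_mem_nhds t hε)
      filter_upwards [h2, self_mem_nhdsWithin] with s hs hsA
      have := h1 s hsA (by rw [Metric.mem_ball, Real.dist_eq] at hs; exact hs)
      simp only [this]
    exact this.mono_right (pure_le_nhds _)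
  have := hA.constant hc ha hb
  simp only [decide_eq_decide] at this
  exact this.mp hPa

variable {d : ℕ} {Y : Type}

/-- coherent sections along a path -/
def Coh (S : E d → Set Y) (r : E d → Y → Y) (γ : ℝ → E d) (A : Set ℝ) (τ : ℝ → Y) : Prop :=
  ∀ t ∈ A, τ t ∈ S (γ t) ∧ ∃ ε > (0 : ℝ), ∀ s ∈ A, |s - t| < ε → τ s = r (γ s) (τ t)

lemma Coh.mono {S : E d → Set Y} {r : E d → Y → Y} {γ : ℝ → E d} {A A' : Set ℝ} {τ : ℝ → Y}
    (h : Coh S r γ A τ) (hA : A' ⊆ A) : Coh S r γ A' τ := by
  intro t ht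
  obtain ⟨h1, ε, hε, h2⟩ := h t (hA ht)
  exact ⟨h1, ε, hε, fun s hs => h2 s (hA hs)⟩

/-- uniqueness of coherent sections -/
lemma Coh.unique {N : Set (E d)} {S : E d → Set Y} {r : E d → Y → Y}
    (H1 : ∀ x ∈ N, ∃ ε > (0 : ℝ), ∀ y ∈ N, dist y x < ε → BijOn (r y) (S x) (S y))
    {γ : ℝ → E d} (hγ : Continuous γ) {A : Set ℝ} (hA : IsPreconnected A)
    (hAN : ∀ t ∈ A, γ t ∈ N) {τ τ' : ℝ → Y} (h : Coh S r γ A τ) (h' : Coh S r γ A τ') {a b : ℝ}
    (ha : a ∈ A) (hb : b ∈ A) (hab : τ a = τ' a) : τ b = τ' b := by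
  refine prop_conn (fun t => τ t = τ' t) hA ?_ ha hb hab
  intro t ht
  obtain ⟨e1, ε1, hε1, f1⟩ := h t ht
  obtain ⟨e2, ε2, hε2, f2⟩ := h' t ht
  obtain ⟨ε3, hε3, f3⟩ := H1 (γ t) (hAN t ht)
  obtain ⟨ε4, hε4, f4⟩ := Metric.continuousAt_iff.mp (hγ.continuousAt (x := t)) ε3 hε3
  refine ⟨min (min ε1 ε2) ε4, by positivity, ?_⟩
  intro s hs hst
  have g1 : |s - t| < ε1 := lt_of_lt_of_le hst (le_trans (min_le_left _ _) (min_le_left _ _))
  have g2 : |s - t| < ε2 := lt_of_lt_of_le hst (le_trans (min_le_left _ _) (min_le_right _ _))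
  have g4 : |s - t| < ε4 := lt_of_lt_of_le hst (min_le_right _ _)
  have hb := f3 (γ s) (hAN s hs) (f4 (by rw [Real.dist_eq]; exact g4))
  simp only [f1 s hs g1, f2 s hs g2]
  exact hb.injOn.eq_iff e1 e2

/-- the local section defined by one value -/
lemma loc {N : Set (E d)} {S : E d → Set Y} {r : E d → Y → Y} {p : E d} {ε : ℝ}
    (hp1 : ∀ y ∈ N, dist y p < ε → BijOn (r y) (S p) (S y))
    (hp2 : ∀ y ∈ N, dist y p < ε → ∃ δ > (0 : ℝ), ∀ z ∈ N, dist z y < δ →
      ∀ f ∈ S p, r z (r y f) = r z f) {γ : ℝ → E d} (hγ : Continuous γ) {A : Set ℝ}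
    (hA : ∀ t ∈ A, γ t ∈ N ∧ dist (γ t) p < ε) {f : Y} (hf : f ∈ S p) :
    Coh S r γ A (fun t => r (γ t) f) := by
  intro t ht
  obtain ⟨h1, h2⟩ := hA t ht
  refine ⟨(hp1 _ h1 h2).mapsTo hf, ?_⟩
  obtain ⟨δ, hδ, h3⟩ := hp2 _ h1 h2
  obtain ⟨ε4, hε4, f4⟩ := Metric.continuousAt_iff.mp (hγ.continuousAt (x := t)) δ hδ
  refine ⟨ε4, hε4, ?_⟩
  intro s hs hst
  exact (h3 (γ s) (hA s hs).1 (f4 (by rw [Real.dist_eq]; exact hst)) f hf).symm

/-- the path from `o` to `x` -/
def pa (o x : E d) (t : ℝ) : E d := o + t • (x - o)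

lemma pa_cont (o x : E d) : Continuous (pa o x) := by
  unfold pa
  fun_prop

lemma pa_dist (o x y : E d) {t : ℝ} (ht : t ∈ Icc (0 : ℝ) 1) :
    dist (pa o y t) (pa o x t) ≤ dist y x := by
  unfold pa
  rw [dist_eq_norm, dist_eq_norm]
  have : o + t • (y - o) - (o + t • (x - o)) = t • (y - x) := by module
  rw [this, norm_smul, Real.norm_eq_abs, abs_of_nonneg ht.1]
  have := norm_nonneg (y - x)
  nlinarith [ht.2]

end MONaux

open MONaux

theorem mon_thm : S_MON := by
  intro d Y N o ho hN S r H1 H2 g hg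
  -- the common radius
  have H : ∀ x ∈ N, ∃ ε > (0 : ℝ), (∀ y ∈ N, dist y x < ε → BijOn (r y) (S x) (S y)) ∧
      (∀ y ∈ N, dist y x < ε → ∃ δ > (0 : ℝ), ∀ z ∈ N, dist z y < δ →
      ∀ f ∈ S x, r z (r y f) = r z f) := by
    intro x hx
    obtain ⟨ε1, h1, h2⟩ := H1 x hx
    obtain ⟨ε3, h3, h4⟩ := H2 x hx
    exact ⟨min ε1 ε3, lt_min h1 h3, fun y hy hd => h2 y hy (lt_of_lt_of_le hd (min_le_left _ _)),
      fun y hy hd => h4 y hy (lt_of_lt_of_le hd (min_le_right _ _))⟩
  have hid : ∀ x ∈ N, ∀ f ∈ S x, r x f = f := by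
    intro x hx f hf
    obtain ⟨ε, hε, h1, h2⟩ := H x hx
    have h3 := h1 x hx (by simpa using hε)
    obtain ⟨δ, hδ, h4⟩ := h2 x hx (by simpa using hε)
    exact h3.injOn (h3.mapsTo hf) hf (h4 x hx (by simpa using hδ) f hf)
  have hpaN : ∀ x ∈ N, ∀ t ∈ Icc (0 : ℝ) 1, pa o x t ∈ N := by
    intro x hx t ht
    apply hN x hx
    rw [segment_eq_image']
    exact ⟨t, ht, rfl⟩
  have hpre : IsPreconnected (Icc (0 : ℝ) 1) := isPreconnected_Icc
  -- existence along the segments
  have hex : ∀ x ∈ N, ∃ τ : ℝ → Y, τ 0 = g ∧ Coh S r (pa o x) (Icc 0 1) τ := by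
    intro x hx
    refine prop_conn (fun t => ∃ τ : ℝ → Y, τ 0 = g ∧ Coh S r (pa o x) (Icc 0 t) τ) hpre ?_
      (left_mem_Icc.mpr zero_le_one) (right_mem_Icc.mpr zero_le_one) ?_
    · intro t ht
      obtain ⟨ε, hε, h1, h2⟩ := H (pa o x t) (hpaN x hx t ht)
      obtain ⟨ε', hε', h3⟩ := Metric.continuousAt_iff.mp
        ((pa_cont o x).continuousAt (x := t)) ε hε
      have key : ∀ s ∈ Icc (0 : ℝ) 1, ∀ s' ∈ Icc (0 : ℝ) 1, |s - t| < ε' → |s' - t| < ε' →
          (∃ τ : ℝ → Y, τ 0 = g ∧ Coh S r (pa o x) (Icc 0 s) τ) →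
          ∃ τ : ℝ → Y, τ 0 = g ∧ Coh S r (pa o x) (Icc 0 s') τ := by
        intro s hs s' hs' hst hst' hτ
        obtain ⟨τ, hτ0, hτ⟩ := hτ
        rcases le_or_gt s' s with hle | hlt
        · exact ⟨τ, hτ0, hτ.mono (Icc_subset_Icc_right hle)⟩
        · have hball : ∀ u ∈ Icc s s', pa o x u ∈ N ∧ dist (pa o x u) (pa o x t) < ε := by
            intro u hu
            refine ⟨hpaN x hx u ⟨le_trans hs.1 hu.1, le_trans hu.2 hs'.2⟩, h3 ?_⟩
            rw [Real.dist_eq]
            rw [abs_lt] at hst hst' ⊢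
            constructor <;> linarith [hu.1, hu.2]
          have hsb := hball s ⟨le_refl _, hlt.le⟩
          obtain ⟨f, hf, hfs⟩ := (h1 _ hsb.1 hsb.2).surjOn (hτ s ⟨hs.1, le_refl _⟩).1
          have hloc := loc h1 h2 (pa_cont o x) hball hf
          refine ⟨fun u => if u ≤ s then τ u else r (pa o x u) f, by simp [hs.1, hτ0], ?_⟩
          intro u hu
          rcases lt_trichotomy u s with hus | hus | hus
          · obtain ⟨e1, ε1, hε1, e2⟩ := hτ u ⟨hu.1, hus.le⟩
            simp only [if_pos hus.le]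
            refine ⟨e1, min ε1 (s - u), lt_min hε1 (by linarith), ?_⟩
            intro v hv hvu
            have hv1 : |v - u| < ε1 := lt_of_lt_of_le hvu (min_le_left _ _)
            have hv2 : |v - u| < s - u := lt_of_lt_of_le hvu (min_le_right _ _)
            have hvs : v ≤ s := by
              have := (abs_lt.mp hv2).2
              linarith
            rw [if_pos hvs]
            exact e2 v ⟨hv.1, hvs⟩ hv1
          · subst hus
            obtain ⟨e1, ε1, hε1, e2⟩ := hτ u ⟨hu.1, le_refl _⟩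
            obtain ⟨e3, ε3, hε3, e4⟩ := hloc u ⟨le_refl _, hlt.le⟩
            simp only [if_pos (le_refl u)]
            refine ⟨e1, min ε1 ε3, lt_min hε1 hε3, ?_⟩
            intro v hv hvu
            have hv1 : |v - u| < ε1 := lt_of_lt_of_le hvu (min_le_left _ _)
            have hv2 : |v - u| < ε3 := lt_of_lt_of_le hvu (min_le_right _ _)
            by_cases hvs : v ≤ u
            · rw [if_pos hvs]
              exact e2 v ⟨hv.1, hvs⟩ hv1
            · rw [if_neg hvs, ← hfs]
              exact e4 v ⟨by linarith, hv.2⟩ hv2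
          · obtain ⟨e3, ε3, hε3, e4⟩ := hloc u ⟨hus.le, hu.2⟩
            simp only [if_neg (not_le.mpr hus)]
            refine ⟨e3, min ε3 (u - s), lt_min hε3 (by linarith), ?_⟩
            intro v hv hvu
            have hv1 : |v - u| < ε3 := lt_of_lt_of_le hvu (min_le_left _ _)
            have hv2 : |v - u| < u - s := lt_of_lt_of_le hvu (min_le_right _ _)
            have hvs : ¬ v ≤ s := by
              have := (abs_lt.mp hv2).1
              intro h
              linarith
            rw [if_neg hvs]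
            exact e4 v ⟨(not_le.mp hvs).le, hv.2⟩ hv1
      refine ⟨ε', hε', ?_⟩
      intro s hs hst
      exact ⟨key s hs t ht hst (by simpa using hε'), key t ht s hs (by simpa using hε') hst⟩
    · refine ⟨fun _ => g, rfl, ?_⟩
      intro t ht
      have ht0 : t = 0 := le_antisymm ht.2 ht.1
      subst ht0
      have hpo : pa o x 0 = o := by simp [pa]
      refine ⟨by rw [hpo]; exact hg, 1, one_pos, ?_⟩
      intro s hs _
      have hs0 : s = 0 := le_antisymm hs.2 hs.1
      subst hs0
      rw [hpo]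
      exact (hid o ho g hg).symm
  have : Nonempty Y := ⟨g⟩
  choose! τ hτ0 hτ using hex
  have hpa1 : ∀ x : E d, pa o x 1 = x := by
    intro x
    simp [pa]
  have hpa0 : ∀ x : E d, pa o x 0 = o := by
    intro x
    simp [pa]
  have h1I : (1 : ℝ) ∈ Icc (0 : ℝ) 1 := right_mem_Icc.mpr zero_le_one
  have h0I : (0 : ℝ) ∈ Icc (0 : ℝ) 1 := left_mem_Icc.mpr zero_le_one
  refine ⟨fun x => τ x 1, ?_, ?_⟩
  · -- the value at `o`
    have hconst : Coh S r (pa o o) (Icc 0 1) (fun _ => g) := by
      intro t _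
      have h1 : ∀ s, pa o o s = o := by
        intro s
        simp [pa]
      refine ⟨by rw [h1]; exact hg, 1, one_pos, ?_⟩
      intro s _ _
      rw [h1]
      exact (hid o ho g hg).symm
    exact Coh.unique H1 (pa_cont o o) hpre (hpaN o ho) (hτ o ho) hconst h0I h1I (hτ0 o ho)
  · intro x hx
    refine ⟨?_, ?_⟩
    · have := (hτ x hx 1 h1I).1
      rwa [hpa1] at this
    · have hP := prop_conn (fun t => ∃ δ > (0 : ℝ), ∀ y ∈ N, dist y x < δ →
        τ y t = r (pa o y t) (τ x t)) hpre ?_ h0I h1I ?_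
      · obtain ⟨δ, hδ, h1⟩ := hP
        refine ⟨δ, hδ, ?_⟩
        intro y hy hyx
        have := h1 y hy hyx
        rwa [hpa1] at this
      · intro t ht
        obtain ⟨ε, hε, h1, h2⟩ := H (pa o x t) (hpaN x hx t ht)
        obtain ⟨e1, ε1, hε1, e2⟩ := hτ x hx t ht
        obtain ⟨ε2, hε2, h3⟩ := Metric.continuousAt_iff.mp
          ((pa_cont o x).continuousAt (x := t)) (ε / 2) (by positivity)
        have key : ∀ s ∈ Icc (0 : ℝ) 1, ∀ s' ∈ Icc (0 : ℝ) 1, |s - t| < min ε1 ε2 →
            |s' - t| < min ε1 ε2 →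
            (∃ δ > (0 : ℝ), ∀ y ∈ N, dist y x < δ → τ y s = r (pa o y s) (τ x s)) →
            ∃ δ > (0 : ℝ), ∀ y ∈ N, dist y x < δ → τ y s' = r (pa o y s') (τ x s') := by
          intro s hs s' hs' hst hst' hP
          obtain ⟨δ, hδ, hP⟩ := hP
          have q1 := lt_of_lt_of_le hst (min_le_left ε1 ε2)
          have q2 := lt_of_lt_of_le hst (min_le_right ε1 ε2)
          have q1' := lt_of_lt_of_le hst' (min_le_left ε1 ε2)
          have q2' := lt_of_lt_of_le hst' (min_le_right ε1 ε2)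
          have w1 := e2 s hs q1
          have w1' := e2 s' hs' q1'
          have d1 : dist (pa o x s) (pa o x t) < ε / 2 := h3 (by rw [Real.dist_eq]; exact q2)
          have d1' : dist (pa o x s') (pa o x t) < ε / 2 := h3 (by rw [Real.dist_eq]; exact q2')
          obtain ⟨δ1, hδ1, w2⟩ := h2 (pa o x s) (hpaN x hx s hs) (by linarith)
          obtain ⟨δ2, hδ2, w2'⟩ := h2 (pa o x s') (hpaN x hx s' hs') (by linarith)
          refine ⟨min (min δ (ε / 2)) (min δ1 δ2), by positivity, ?_⟩
          intro y hy hyx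
          have k1 : dist y x < δ := lt_of_lt_of_le hyx (le_trans (min_le_left _ _)
            (min_le_left _ _))
          have k2 : dist y x < ε / 2 := lt_of_lt_of_le hyx (le_trans (min_le_left _ _)
            (min_le_right _ _))
          have k3 : dist y x < δ1 := lt_of_lt_of_le hyx (le_trans (min_le_right _ _)
            (min_le_left _ _))
          have k4 : dist y x < δ2 := lt_of_lt_of_le hyx (le_trans (min_le_right _ _)
            (min_le_right _ _))
          have hsub : uIcc s s' ⊆ Icc (0 : ℝ) 1 := by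
            intro u hu
            rw [mem_uIcc] at hu
            rcases hu with hu | hu
            · exact ⟨le_trans hs.1 hu.1, le_trans hu.2 hs'.2⟩
            · exact ⟨le_trans hs'.1 hu.1, le_trans hu.2 hs.2⟩
          have hball : ∀ u ∈ uIcc s s', pa o y u ∈ N ∧ dist (pa o y u) (pa o x t) < ε := by
            intro u hu
            refine ⟨hpaN y hy u (hsub hu), ?_⟩
            have m1 := pa_dist o x y (hsub hu)
            have m2 : dist (pa o x u) (pa o x t) < ε / 2 := by
              apply h3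
              rw [Real.dist_eq]
              rw [abs_lt] at q2 q2' ⊢
              rw [mem_uIcc] at hu
              rcases hu with hu | hu
              · constructor <;> linarith [hu.1, hu.2]
              · constructor <;> linarith [hu.1, hu.2]
            have m3 := dist_triangle (pa o y u) (pa o x u) (pa o x t)
            linarith
          have hloc := loc h1 h2 (pa_cont o y) hball e1
          have hτy := (hτ y hy).mono hsub
          have hagree : τ y s = r (pa o y s) (τ x t) := by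
            rw [hP y hy k1, w1]
            exact w2 (pa o y s) (hpaN y hy s hs)
              (lt_of_le_of_lt (pa_dist o x y hs) k3) (τ x t) e1
          have huniq := Coh.unique H1 (pa_cont o y) isPreconnected_uIcc
            (fun u hu => (hball u hu).1) hτy hloc left_mem_uIcc right_mem_uIcc hagree
          rw [huniq, w1']
          exact (w2' (pa o y s') (hpaN y hy s' hs')
            (lt_of_le_of_lt (pa_dist o x y hs') k4) (τ x t) e1).symm
        refine ⟨min ε1 ε2, by positivity, ?_⟩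
        intro s hs hst
        have hpos : (0 : ℝ) < min ε1 ε2 := by positivity
        exact ⟨key s hs t ht hst (by simpa using hpos), key t ht s hs (by simpa using hpos) hst⟩
      · refine ⟨1, one_pos, ?_⟩
        intro y hy _
        rw [hτ0 y hy, hτ0 x hx, hpa0]
        exact (hid o ho g hg).symm

end TL
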