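import Pool.Agent.Helper22.TL.Spec

set_option autoImplicit false

/-! TL part RFL: reflections, existence and orders of products. -/

namespace TL

open Set

namespace RFLaux

variable {d : ℕ}

lemma isom (n : E d) (c : ℝ) (hn : n ≠ 0) (x y : E d) :
    ‖(x - (2 * (inner ℝ n x - c) / inner ℝ n n) • n) -
      (y - (2 * (inner ℝ n y - c) / inner ℝ n n) • n)‖ = ‖x - y‖ := by
  have hnn : (inner ℝ n n : ℝ) ≠ 0 := inner_self_ne_zero.mpr hn
  set a : ℝ := inner ℝ n n with ha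
  have h1 : (x - (2 * (inner ℝ n x - c) / a) • n) - (y - (2 * (inner ℝ n y - c) / a) • n) =
      (x - y) - (2 * inner ℝ n (x - y) / a) • n := by
    rw [inner_sub_right]
    module
  rw [h1]
  set z := x - y with hz
  have h2 : ‖z - (2 * inner ℝ n z / a) • n‖ ^ 2 = ‖z‖ ^ 2 := by
    rw [norm_sub_sq_real, norm_smul, inner_smul_right, real_inner_comm n z, mul_pow,
      ← real_inner_self_eq_norm_sq n, ← ha, Real.norm_eq_abs, sq_abs]
    field_simp
    ring
  have h3 := norm_nonneg (z - (2 * inner ℝ n z / a) • n)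
  have h4 := norm_nonneg z
  nlinarith [sq_nonneg (‖z - (2 * inner ℝ n z / a) • n‖ - ‖z‖)]

lemma invol (n : E d) (c : ℝ) (hn : n ≠ 0) (x : E d) :
    (x - (2 * (inner ℝ n x - c) / inner ℝ n n) • n) -
      (2 * (inner ℝ n (x - (2 * (inner ℝ n x - c) / inner ℝ n n) • n) - c) / inner ℝ n n) • n
      = x := by
  have hnn : (inner ℝ n n : ℝ) ≠ 0 := inner_self_ne_zero.mpr hn
  rw [inner_sub_right, inner_smul_right]
  set a : ℝ := inner ℝ n n with ha
  set u : ℝ := inner ℝ n x with hu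
  have h1 : 2 * (u - 2 * (u - c) / a * a - c) / a = -(2 * (u - c) / a) := by
    field_simp
    ring
  rw [h1]
  module

/-- one reflection step -/
lemma step {φ : E d ≃ᵢ E d} {n : E d} {c : ℝ} (hn : n ≠ 0) (h : IsRefl φ n c) (m : E d) (e : ℝ)
    (x : E d) : φ x = x - (2 * (inner ℝ n x - c) / inner ℝ n n) • n ∧
      inner ℝ n (φ x) - c = -(inner ℝ n x - c) ∧
      inner ℝ m (φ x) - e = (inner ℝ m x - e) -
        (2 * inner ℝ n m / inner ℝ n n) * (inner ℝ n x - c) := by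
  have hnn : (inner ℝ n n : ℝ) ≠ 0 := inner_self_ne_zero.mpr hn
  refine ⟨h x, ?_, ?_⟩
  · rw [h x, inner_sub_right, inner_smul_right]
    field_simp
    ring
  · rw [h x, inner_sub_right, inner_smul_right, real_inner_comm m n]
    field_simp
    ring

/-- a double step -/
lemma dstep {φ ψ : E d ≃ᵢ E d} {n m : E d} {c e : ℝ} (hn : n ≠ 0) (hm : m ≠ 0)
    (hφ : IsRefl φ n c) (hψ : IsRefl ψ m e) (p q : ℝ)
    (hp : p = 2 * inner ℝ n m / inner ℝ m m) (hq : q = 2 * inner ℝ n m / inner ℝ n n)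
    (x : E d) (u v : ℝ) (hu : inner ℝ n x - c = u) (hv : inner ℝ m x - e = v) :
    φ (ψ x) = x - (2 * v / inner ℝ m m) • m - (2 * (u - p * v) / inner ℝ n n) • n ∧
    inner ℝ n (φ (ψ x)) - c = -(u - p * v) ∧
    inner ℝ m (φ (ψ x)) - e = -v - q * (u - p * v) := by
  obtain ⟨a1, a2, a3⟩ := step hm hψ n c x
  obtain ⟨b1, b2, b3⟩ := step hn hφ m e (ψ x)
  rw [real_inner_comm n m, ← hp, hu, hv] at a3
  rw [hv] at a2
  rw [← hq, a2, a3] at b3
  rw [a3] at b1 b2
  rw [hv] at a1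
  exact ⟨by rw [b1, a1], b2, b3⟩

lemma fin3 (n m x : E d) (a b v1 v2 v3 u1 u2 u3 : ℝ) (h1 : v1 + v2 + v3 = 0)
    (h2 : u1 + u2 + u3 = 0) :
    x - (2 * v1 / b) • m - (2 * u1 / a) • n - (2 * v2 / b) • m - (2 * u2 / a) • n -
      (2 * v3 / b) • m - (2 * u3 / a) • n = x := by
  have : x - (2 * v1 / b) • m - (2 * u1 / a) • n - (2 * v2 / b) • m - (2 * u2 / a) • n -
      (2 * v3 / b) • m - (2 * u3 / a) • n =
      x - (2 * (v1 + v2 + v3) / b) • m - (2 * (u1 + u2 + u3) / a) • n := by module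
  rw [this, h1, h2]
  simp

lemma fin4 (n m x : E d) (a b v1 v2 v3 v4 u1 u2 u3 u4 : ℝ) (h1 : v1 + v2 + v3 + v4 = 0)
    (h2 : u1 + u2 + u3 + u4 = 0) :
    x - (2 * v1 / b) • m - (2 * u1 / a) • n - (2 * v2 / b) • m - (2 * u2 / a) • n -
      (2 * v3 / b) • m - (2 * u3 / a) • n - (2 * v4 / b) • m - (2 * u4 / a) • n = x := by
  have : x - (2 * v1 / b) • m - (2 * u1 / a) • n - (2 * v2 / b) • m - (2 * u2 / a) • n -
      (2 * v3 / b) • m - (2 * u3 / a) • n - (2 * v4 / b) • m - (2 * u4 / a) • n =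
      x - (2 * (v1 + v2 + v3 + v4) / b) • m - (2 * (u1 + u2 + u3 + u4) / a) • n := by module
  rw [this, h1, h2]
  simp

end RFLaux

open RFLaux

theorem rfl_thm : S_RFL := by
  intro d
  refine ⟨?_, ?_⟩
  · intro n c hn
    refine ⟨IsometryEquiv.mk' (fun x => x - (2 * (inner ℝ n x - c) / inner ℝ n n) • n)
      (fun x => x - (2 * (inner ℝ n x - c) / inner ℝ n n) • n) (fun x => invol n c hn x) ?_, ?_⟩
    · apply Isometry.of_dist_eq
      intro x y
      rw [dist_eq_norm, dist_eq_norm]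
      exact isom n c hn x y
    · intro x
      rfl
  · intro φ ψ n m c e hn hm hφ hψ
    have ha : (inner ℝ n n : ℝ) ≠ 0 := inner_self_ne_zero.mpr hn
    have hb : (inner ℝ m m : ℝ) ≠ 0 := inner_self_ne_zero.mpr hm
    obtain ⟨p, hp⟩ : ∃ p : ℝ, p = 2 * inner ℝ n m / inner ℝ m m := ⟨_, rfl⟩
    obtain ⟨q, hq⟩ : ∃ q : ℝ, q = 2 * inner ℝ n m / inner ℝ n n := ⟨_, rfl⟩
    refine ⟨?_, ?_⟩
    · intro h
      ext1 x
      have e0 : ((φ * ψ) ^ 3) x = φ (ψ (φ (ψ (φ (ψ x))))) := by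
        simp [pow_succ, IsometryEquiv.mul_apply]
      rw [e0]
      have hpq : p * q = 1 := by
        rw [hp, hq]
        field_simp
        linear_combination h
      obtain ⟨a1, a2, a3⟩ := dstep hn hm hφ hψ p q hp hq x _ _ rfl rfl
      obtain ⟨b1, b2, b3⟩ := dstep hn hm hφ hψ p q hp hq (φ (ψ x)) _ _ a2 a3
      obtain ⟨c1, c2, c3⟩ := dstep hn hm hφ hψ p q hp hq (φ (ψ (φ (ψ x)))) _ _ b2 b3
      rw [c1, b1, a1]
      generalize inner ℝ n x - c = u at *
      generalize inner ℝ m x - e = v at *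
      show _ = x
      have h1 : v + (-v - q * (u - p * v)) + (-(-v - q * (u - p * v)) -
          q * (-(u - p * v) - p * (-v - q * (u - p * v)))) = 0 := by
        linear_combination ((p * q - 1) * v - q * u) * hpq
      have h2 : (u - p * v) + (-(u - p * v) - p * (-v - q * (u - p * v))) +
          (-(-(u - p * v) - p * (-v - q * (u - p * v))) - p * (-(-v - q * (u - p * v)) -
          q * (-(u - p * v) - p * (-v - q * (u - p * v))))) = 0 := by
        linear_combination ((p * q - 1) * u - (p * q - 2) * p * v) * hpq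
      exact fin3 n m x _ _ _ _ _ _ _ _ h1 h2
    · intro h
      ext1 x
      have e0 : ((φ * ψ) ^ 4) x = φ (ψ (φ (ψ (φ (ψ (φ (ψ x))))))) := by
        simp [pow_succ, IsometryEquiv.mul_apply]
      rw [e0]
      have hpq : p * q = 2 := by
        rw [hp, hq]
        field_simp
        linear_combination h
      obtain ⟨a1, a2, a3⟩ := dstep hn hm hφ hψ p q hp hq x _ _ rfl rfl
      obtain ⟨b1, b2, b3⟩ := dstep hn hm hφ hψ p q hp hq (φ (ψ x)) _ _ a2 a3
      obtain ⟨c1, c2, c3⟩ := dstep hn hm hφ hψ p q hp hq (φ (ψ (φ (ψ x)))) _ _ b2 b3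
      obtain ⟨d1, d2, d3⟩ := dstep hn hm hφ hψ p q hp hq (φ (ψ (φ (ψ (φ (ψ x)))))) _ _ c2 c3
      rw [d1, c1, b1, a1]
      generalize inner ℝ n x - c = u at *
      generalize inner ℝ m x - e = v at *
      show _ = x
      refine fin4 n m x _ _ _ _ _ _ _ _ _ _ ?_ ?_
      · linear_combination (p * q * (p * q - 2) * v - (p * q - 1) * q * u) * hpq
      · linear_combination (p * q * (p * q - 2) * u +
          (-(p * q) ^ 2 + 3 * (p * q) - 1) * p * v) * hpq

end TL
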